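import Pool.Agent.helper95.SP.SpecCH
import Pool.Agent.helper64.TP.Conv

/-!
# Project sp, part CH, module WL: linearity of integrals of weights over local events
-/

namespace TP.K

open DP MeasureTheory

noncomputable section

/-- the configurations with given colours on `Λ` -/
def WL_X (Λ : Finset V) (κ : Λ → Bool) : Set (V → Bool) := {b | ∀ v : Λ, b (br v) = κ v}

theorem WL_loc {A : Set V} {Λ : Finset V} (hΛ : (Λ : Set V) ⊆ A) (κ : Λ → Bool) :
    Loc (WL_X Λ κ) A := by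
  refine ⟨Λ, hΛ, fun b b' hb => ?_⟩
  unfold WL_X
  simp only [Set.mem_ofPred_eq]
  exact forall_congr' fun v => by rw [hb v v.2]

/-- the value of `Z` on the class of `κ` -/
def WL_z (Z : (V → Bool) → ℝ) (Λ : Finset V) (κ : Λ → Bool) : ℝ :=
  open Classical in if h : (WL_X Λ κ).Nonempty then Z h.some else 0

theorem WL_z_nonneg {Z : (V → Bool) → ℝ} (hZ : ∀ b, 0 ≤ Z b) (Λ : Finset V) (κ : Λ → Bool) :
    0 ≤ WL_z Z Λ κ := by
  unfold WL_z
  split_ifs with h
  · exact hZ _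
  · exact le_rfl

theorem WL_sum {Z : (V → Bool) → ℝ} {Λ : Finset V}
    (hZ : ∀ b b' : V → Bool, (∀ v ∈ Λ, b (br v) = b' (br v)) → Z b = Z b') (b : V → Bool) :
    Z b = ∑ κ : Λ → Bool, (WL_X Λ κ).indicator (fun _ => WL_z Z Λ κ) b := by
  rw [Finset.sum_eq_single (fun v : Λ => b (br v))]
  · have hb : b ∈ WL_X Λ (fun v : Λ => b (br v)) := fun v => rfl
    rw [Set.indicator_of_mem hb]
    unfold WL_z
    have hne : (WL_X Λ (fun v : Λ => b (br v))).Nonempty := ⟨b, hb⟩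
    rw [dif_pos hne]
    apply hZ
    intro v hv
    exact (hne.some_mem ⟨v, hv⟩).symm
  · intro κ _ hne
    rw [Set.indicator_of_notMem]
    intro hb
    exact hne (funext fun v => (hb v).symm)
  · intro h
    exact absurd (Finset.mem_univ _) h

theorem WL_prob : IsProbabilityMeasure P1 := by
  unfold P1
  infer_instance

theorem WL_EZ {A : Set V} {Z : (V → Bool) → ℝ} {Λ : Finset V} (hΛ : (Λ : Set V) ⊆ A)
    (hZ : ∀ b b' : V → Bool, (∀ v ∈ Λ, b (br v) = b' (br v)) → Z b = Z b')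
    (E : Set (V → Bool)) :
    EZ Z E = ∑ κ : Λ → Bool, WL_z Z Λ κ * Pr (WL_X Λ κ ∩ E) := by
  haveI := WL_prob
  unfold EZ
  have hm : ∀ κ : Λ → Bool, MeasurableSet (WL_X Λ κ) := fun κ => (WL_loc hΛ κ).measurableSet
  calc ∫ b in E, Z b ∂P1
      = ∫ b in E, ∑ κ : Λ → Bool, (WL_X Λ κ).indicator (fun _ => WL_z Z Λ κ) b ∂P1 := by
        congr 1
        funext b
        exact WL_sum hZ b
    _ = ∑ κ : Λ → Bool, ∫ b in E, (WL_X Λ κ).indicator (fun _ => WL_z Z Λ κ) b ∂P1 := by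
        refine integral_finsetSum _ fun κ _ => ?_
        exact (integrable_const _).indicator (hm κ)
    _ = _ := by
        refine Finset.sum_congr rfl fun κ _ => ?_
        rw [integral_indicator_const _ (hm κ), measureReal_restrict_apply (hm κ), smul_eq_mul,
          mul_comm]
        rfl

theorem WL : WL_stmt := by
  intro A B Z E F G α β γ hZ hZ0 _ _ _ h
  obtain ⟨Λ, hΛ, hloc⟩ := hZ
  rw [WL_EZ hΛ hloc E, WL_EZ hΛ hloc F, WL_EZ hΛ hloc G, Finset.mul_sum, Finset.mul_sum,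
    Finset.mul_sum, ← Finset.sum_add_distrib]
  refine Finset.sum_le_sum fun κ _ => ?_
  have h1 := h (WL_X Λ κ) (WL_loc hΛ κ)
  have h2 := mul_le_mul_of_nonneg_left h1 (WL_z_nonneg hZ0 Λ κ)
  calc α * (WL_z Z Λ κ * Pr (WL_X Λ κ ∩ E)) = WL_z Z Λ κ * (α * Pr (WL_X Λ κ ∩ E)) := by ring
    _ ≤ WL_z Z Λ κ * (β * Pr (WL_X Λ κ ∩ F) + γ * Pr (WL_X Λ κ ∩ G)) := h2
    _ = _ := by ring

end

end TP.K
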